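import Pool.Agent.helper82.KN.Spec

/-! Row kn:LS0 (MP_8ffa71_co). -/

set_option autoImplicit false

open Finset Polynomial

namespace Pool.Agent.KN

theorem LS0_zero {V : Type} [Fintype V] [DecidableEq V] {M : Matrix V V ℤ} {u : V} {j : ℤ}
    (h : nj M u j = 0) (v : V) : M u v ≠ j := by
  intro hv
  unfold nj at h
  rw [card_eq_zero] at h
  have : v ∈ (univ.filter fun v => M u v = j) := mem_filter.2 ⟨mem_univ v, hv⟩
  rw [h] at this
  exact absurd this (notMem_empty v)

theorem LS0_nj {V : Type} [Fintype V] [DecidableEq V] (M : Matrix V V ℤ) (u : V) (j : ℤ) :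
    ∑ v, (if M u v = j then (1 : ℤ) else 0) = (nj M u j : ℤ) := by
  unfold nj
  rw [sum_boole]

theorem LS0_term {V : Type} [Fintype V] [DecidableEq V] {A M : Matrix V V ℤ} (hL : LData A M)
    (h3 : ∀ u v, u ≠ v → A u v = 0 → M u v = -4 ∨ M u v = 0 ∨ M u v = 2 ∨ M u v = 4 ∨ M u v = 6)
    (w z : V) : M w z ^ 2 * (A * A) w z =
      2880 * (if M w z = 12 then (1 : ℤ) else 0) + 36 * (if M w z = -6 then (1 : ℤ) else 0) +
      24 * (if M w z = 2 then (1 : ℤ) else 0) + 128 * (if M w z = 4 then (1 : ℤ) else 0) +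
      360 * (if M w z = 6 then (1 : ℤ) else 0) := by
  have hsq := hL.sq w z
  rw [hsq]
  by_cases hwz : w = z
  · subst hwz
    rw [hL.mdiag w, hL.diag w]
    norm_num
  · rw [if_neg hwz]
    rcases hL.zo w z with h0 | h1
    · rw [h0]
      rcases h3 w z hwz h0 with h | h | h | h | h <;> rw [h] <;> norm_num
    · rw [h1, hL.edge w z h1]
      norm_num

theorem LS0 (hLV3 : LV3_stmt) (hLC2 : LC2_stmt) (hLC3 : LC3_stmt) (hLTR : LTR_stmt) :
    LS0_stmt := by
  intro V _ _ A M hL
  have h3 := hLV3 V A M hL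
  rcases hLC3 V A M hL with hC | hC
  · intro u v huv h0
    obtain ⟨s, hs, e4, e0, e2, e4', e6, _, _⟩ := hLC2 V A M hL u
    have hC' := hC u
    have s0 : s = 0 := by omega
    subst s0
    have n4 : nj M u (-4) = 0 := hC u
    have n2 : nj M u 2 = 0 := by omega
    have n4' : nj M u 4 = 0 := by omega
    rcases h3 u v huv h0 with h | h | h | h | h
    · exact absurd h (LS0_zero n4 v)
    · exact Or.inl h
    · exact absurd h (LS0_zero n2 v)
    · exact absurd h (LS0_zero n4' v)
    · exact Or.inr h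
  · exfalso
    have key : ∀ w, ∑ z, M w z ^ 2 * (A * A) w z = 8160 := by
      intro w
      obtain ⟨s, hs, e4, e0, e2, e4', e6, em6, e12⟩ := hLC2 V A M hL w
      have hC' := hC w
      have s1 : s = 1 := by omega
      subst s1
      rw [sum_congr rfl fun z _ => LS0_term hL h3 w z, sum_add_distrib, sum_add_distrib,
        sum_add_distrib, sum_add_distrib, ← mul_sum, ← mul_sum, ← mul_sum, ← mul_sum, ← mul_sum,
        LS0_nj, LS0_nj, LS0_nj, LS0_nj, LS0_nj, e2, e4', e6, em6, e12]
      norm_num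
    have tot : ∑ u, ∑ w, ∑ w', A u w * A u w' * M w w' ^ 2 = 84 * 8160 := by
      have e1 : ∑ u, ∑ w, ∑ w', A u w * A u w' * M w w' ^ 2 =
          ∑ w, ∑ w', M w w' ^ 2 * (A * A) w w' := by
        rw [sum_comm]
        refine sum_congr rfl fun w _ => ?_
        rw [sum_comm]
        refine sum_congr rfl fun w' _ => ?_
        rw [Matrix.mul_apply, mul_sum]
        refine sum_congr rfl fun u _ => ?_
        rw [hL.symm w u]
        ring
      rw [e1, sum_congr rfl fun w _ => key w, sum_const, card_univ, hL.card]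
      norm_num
    have hsum : ∑ u : V, (403200 : ℤ) ≤
        ∑ u, 49 * ∑ w, ∑ w', A u w * A u w' * M w w' ^ 2 :=
      sum_le_sum fun u _ => hLTR V A M hL u
    rw [← mul_sum, tot, sum_const, card_univ, hL.card] at hsum
    norm_num at hsum

end Pool.Agent.KN
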